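import Mathlib

set_option autoImplicit false

/-!
# The language of set theory, and models of ZFC

The axioms of Zermelo-Fraenkel set theory for a structure `(M, E)`. The axiom schemas of
separation and replacement are stated for all first-order formulas with parameters.
-/

open FirstOrder FirstOrder.Language

namespace Pool.Agent.helper60.FcU

/-- The non-logical symbols of set theory: one binary relation symbol. -/
inductive MemSymbol : ℕ → Type
  | mem : MemSymbol 2

/-- The first-order language of set theory. -/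
def LSet : FirstOrder.Language.{0, 0} := ⟨fun _ => Empty, MemSymbol⟩

/-- Formulas of the language of set theory in the variables `0, …, n - 1`. -/
abbrev Fm (n : ℕ) : Type := LSet.BoundedFormula Empty n

/-- The tuple `xs` followed by `x`. -/
def sn {N : Type*} {n : ℕ} (xs : Fin n → N) (x : N) : Fin (n + 1) → N :=
  Fin.snoc (α := fun _ => N) xs x

/-- The structure for the language of set theory given by a binary relation. -/
@[reducible] def setStr {M : Type*} (E : M → M → Prop) : LSet.Structure M where
  funMap := fun f _ => Empty.elim f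
  RelMap := fun R xs => match R with
    | .mem => E (xs 0) (xs 1)

/-- Satisfaction of a formula in the structure `(M, E)`. -/
def Sat {M : Type*} (E : M → M → Prop) {n : ℕ} (φ : Fm n) (a : Fin n → M) : Prop :=
  @BoundedFormula.Realize LSet M (setStr E) Empty n φ default a

/-- `(M, E)` is a model of ZF. -/
structure IsZF {M : Type} (E : M → M → Prop) : Prop where
  /-- extensionality -/
  ext : ∀ x y, (∀ z, E z x ↔ E z y) → x = y
  /-- foundation -/
  found : ∀ x, (∃ y, E y x) → ∃ y, E y x ∧ ∀ z, ¬ (E z x ∧ E z y)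
  /-- pairing -/
  pair : ∀ x y, ∃ z, ∀ t, E t z ↔ t = x ∨ t = y
  /-- union -/
  union : ∀ x, ∃ y, ∀ z, E z y ↔ ∃ u, E u x ∧ E z u
  /-- power set -/
  power : ∀ x, ∃ y, ∀ z, E z y ↔ ∀ t, E t z → E t x
  /-- infinity -/
  infinity : ∃ w, (∃ e, E e w ∧ ∀ t, ¬ E t e) ∧
    ∀ x, E x w → ∃ y, E y w ∧ ∀ t, E t y ↔ (E t x ∨ t = x)
  /-- the separation schema -/
  sep : ∀ (n : ℕ) (φ : Fm (n + 1)) (a : Fin n → M) (x : M),
    ∃ y, ∀ z, E z y ↔ E z x ∧ Sat E φ (sn a z)
  /-- the replacement schema -/
  repl : ∀ (n : ℕ) (φ : Fm (n + 2)) (a : Fin n → M) (x : M),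
    (∀ u, E u x → ∃! v, Sat E φ (sn (sn a u) v)) →
      ∃ y, ∀ v, E v y ↔ ∃ u, E u x ∧ Sat E φ (sn (sn a u) v)

/-- `(M, E)` is a model of ZFC. -/
structure IsZFC {M : Type} (E : M → M → Prop) : Prop extends IsZF E where
  /-- choice: a set of nonempty pairwise disjoint sets has a choice set -/
  choice : ∀ x, (∀ u, E u x → ∃ t, E t u) →
    (∀ u v, E u x → E v x → u ≠ v → ¬ ∃ t, E t u ∧ E t v) →
      ∃ c, ∀ u, E u x → ∃! t, E t u ∧ E t c

end Pool.Agent.helper60.FcU
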