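import Mathlib
import Pool.Agent.helper60.FcU.Lang

set_option autoImplicit false

universe u

/-!
# Forcing over the universe of sets: names and the forcing relation

Names for a forcing poset, and the forcing relation for first-order formulas in the language of
set theory; all quantifiers range over a given class `S` of names. (The treatment of the atomic
formulas follows Pool.Agent.helper60.Forcing.)
-/

open FirstOrder FirstOrder.Language

namespace Pool.Agent.helper60.FcU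

section TV

variable {P : Type u} [Preorder P]

/-- A regular set of conditions: closed under strengthening, and containing every condition below
which it is dense. -/
structure Reg (u : P → Prop) : Prop where
  mono : ∀ {p q : P}, q ≤ p → u p → u q
  dense : ∀ {p : P}, (∀ q ≤ p, ∃ r ≤ q, u r) → u p

theorem Reg.const (a : Prop) : Reg (fun _ : P => a) :=
  ⟨fun _ h => h, fun {p} h => by obtain ⟨_, _, h'⟩ := h p le_rfl; exact h'⟩

theorem Reg.and {u v : P → Prop} (hu : Reg u) (hv : Reg v) : Reg (fun p => u p ∧ v p) :=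
  ⟨fun h h' => ⟨hu.mono h h'.1, hv.mono h h'.2⟩, fun h => ⟨hu.dense fun q hq => by
    obtain ⟨r, hr, h'⟩ := h q hq; exact ⟨r, hr, h'.1⟩, hv.dense fun q hq => by
    obtain ⟨r, hr, h'⟩ := h q hq; exact ⟨r, hr, h'.2⟩⟩⟩

theorem Reg.all {ι : Sort*} {u : ι → P → Prop} (hu : ∀ i, Reg (u i)) : Reg (fun p => ∀ i, u i p) :=
  ⟨fun h h' i => (hu i).mono h (h' i), fun h i => (hu i).dense fun q hq => by
    obtain ⟨r, hr, h'⟩ := h q hq; exact ⟨r, hr, h' i⟩⟩

theorem Reg.imp {u v : P → Prop} (hu : Reg u) (hv : Reg v) :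
    Reg (fun p => ∀ q ≤ p, u q → v q) :=
  ⟨fun h h' r hr => h' r (hr.trans h), fun {p} h q hq huq => hv.dense fun r hr => by
    obtain ⟨s, hs, h'⟩ := h r (hr.trans hq)
    exact ⟨s, hs, h' s le_rfl (hu.mono (hs.trans hr) huq)⟩⟩

theorem Reg.neg {u : P → Prop} (hu : Reg u) : Reg (fun p => ∀ q ≤ p, ¬ u q) :=
  ⟨fun h h' r hr => h' r (hr.trans h), fun {p} h q hq huq => by
    obtain ⟨s, hs, h'⟩ := h q hq
    exact h' s le_rfl (hu.mono hs huq)⟩

theorem Reg.exi {ι : Sort*} {u : ι → P → Prop} : Reg (fun p => ∀ q ≤ p, ∃ r ≤ q, ∃ i, u i r) :=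
  ⟨fun h h' r hr => h' r (hr.trans h), fun {p} h q hq => by
    obtain ⟨r, hr, h'⟩ := h q hq
    obtain ⟨s, hs, h''⟩ := h' r le_rfl
    exact ⟨s, hs.trans hr, h''⟩⟩

theorem Reg.dens {u : P → Prop} : Reg (fun p => ∀ q ≤ p, ∃ r ≤ q, u r) :=
  ⟨fun h h' r hr => h' r (hr.trans h), fun {p} h q hq => by
    obtain ⟨r, hr, h'⟩ := h q hq
    obtain ⟨s, hs, h''⟩ := h' r le_rfl
    exact ⟨s, hs.trans hr, h''⟩⟩

/-- Either some extension satisfies the negation of `u`, or `p` satisfies `u`. -/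
theorem Reg.em {u : P → Prop} (hu : Reg u) (p : P) : u p ∨ ∃ q ≤ p, ∀ r ≤ q, ¬ u r := by
  by_cases h : ∃ q ≤ p, ∀ r ≤ q, ¬ u r
  · exact Or.inr h
  · refine Or.inl (hu.dense fun q hq => ?_)
    by_contra hcon
    exact h ⟨q, hq, fun r hr hur => hcon ⟨r, hr, hur⟩⟩

end TV

/-- `P`-names: a name is a set (indexed by `ι`) of pairs (name, condition). -/
inductive Name (P : Type u) : Type (u + 1)
  | mk (ι : Type u) (x : ι → Name P) (c : ι → P) : Name P

section Atomic

variable {P : Type u} [Preorder P]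

/-- `p ⊩ x = y`, for names `x = {(x i, a i) : i}` and `y = {(y j, b j) : j}`: every `x i` is forced
by each `q ≤ p, a i` to be equal to some `y j`, and vice versa. -/
def ForcesEq : Name P → Name P → P → Prop
  | .mk ι x a, .mk κ y b => fun p =>
    (∀ i : ι, ∀ q ≤ p, q ≤ a i → ∃ r ≤ q, ∃ j : κ, r ≤ b j ∧ ForcesEq (x i) (y j) r) ∧
    (∀ j : κ, ∀ q ≤ p, q ≤ b j → ∃ r ≤ q, ∃ i : ι, r ≤ a i ∧ ForcesEq (x i) (y j) r)

/-- `p ⊩ x ∈ y`, for `y = {(y j, b j) : j}`: the set of `r` such that for some `j`, `r ≤ b j` and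
`r ⊩ x = y j`, is dense below `p`. -/
def ForcesMem (x : Name P) : Name P → P → Prop
  | .mk κ y b => fun p => ∀ q ≤ p, ∃ r ≤ q, ∃ j : κ, r ≤ b j ∧ ForcesEq x (y j) r

theorem ForcesEq.mono {x y : Name P} {p q : P} (hq : q ≤ p) (h : ForcesEq x y p) :
    ForcesEq x y q := by
  obtain ⟨ι, x, a⟩ := x
  obtain ⟨κ, y, b⟩ := y
  exact ⟨fun i r hr => h.1 i r (hr.trans hq), fun j r hr => h.2 j r (hr.trans hq)⟩

theorem ForcesEq.reg (x y : Name P) : Reg (ForcesEq x y) := by
  refine ⟨fun h h' => h'.mono h, ?_⟩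
  obtain ⟨ι, x, a⟩ := x
  obtain ⟨κ, y, b⟩ := y
  intro p h
  refine ⟨fun i q hq hqi => ?_, fun j q hq hqj => ?_⟩
  · obtain ⟨r, hr, h'⟩ := h q hq
    obtain ⟨s, hs, h''⟩ := h'.1 i r le_rfl (hr.trans hqi)
    exact ⟨s, hs.trans hr, h''⟩
  · obtain ⟨r, hr, h'⟩ := h q hq
    obtain ⟨s, hs, h''⟩ := h'.2 j r le_rfl (hr.trans hqj)
    exact ⟨s, hs.trans hr, h''⟩

theorem ForcesEq.refl (x : Name P) (p : P) : ForcesEq x x p := by
  induction x generalizing p with
  | mk ι x a ih =>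
    exact ⟨fun i q _ hqi => ⟨q, le_rfl, i, hqi, ih i q⟩,
      fun i q _ hqi => ⟨q, le_rfl, i, hqi, ih i q⟩⟩

theorem ForcesEq.symm {x y : Name P} {p : P} (h : ForcesEq x y p) : ForcesEq y x p := by
  induction x generalizing y p with
  | mk ι x a ih =>
    obtain ⟨κ, y, b⟩ := y
    refine ⟨fun j q hq hqj => ?_, fun i q hq hqi => ?_⟩
    · obtain ⟨r, hr, i, hi, h'⟩ := h.2 j q hq hqj
      exact ⟨r, hr, i, hi, ih i h'⟩
    · obtain ⟨r, hr, j, hj, h'⟩ := h.1 i q hq hqi
      exact ⟨r, hr, j, hj, ih i h'⟩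

theorem ForcesEq.trans {x y z : Name P} {p : P} (h : ForcesEq x y p) (h' : ForcesEq y z p) :
    ForcesEq x z p := by
  induction x generalizing y z p with
  | mk ι x a ih =>
    obtain ⟨κ, y, b⟩ := y
    obtain ⟨l, z, c⟩ := z
    refine ⟨fun i q hq hqi => ?_, fun k q hq hqk => ?_⟩
    · obtain ⟨r, hr, j, hj, h1⟩ := h.1 i q hq hqi
      obtain ⟨s, hs, k, hk, h2⟩ := h'.1 j r (hr.trans hq) hj
      exact ⟨s, hs.trans hr, k, hk, ih i (h1.mono hs) h2⟩
    · obtain ⟨r, hr, j, hj, h1⟩ := h'.2 k q hq hqk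
      obtain ⟨s, hs, i, hi, h2⟩ := h.2 j r (hr.trans hq) hj
      exact ⟨s, hs.trans hr, i, hi, ih i h2 (h1.mono hs)⟩

theorem ForcesMem.reg (x y : Name P) : Reg (ForcesMem x y) := by
  obtain ⟨κ, y, b⟩ := y
  exact ⟨fun h h' r hr => h' r (hr.trans h), fun {p} h q hq => by
    obtain ⟨r, hr, h'⟩ := h q hq
    obtain ⟨s, hs, h''⟩ := h' r le_rfl
    exact ⟨s, hs.trans hr, h''⟩⟩

theorem ForcesMem.congr_left {x x' y : Name P} {p : P} (h : ForcesMem x y p)
    (hx : ForcesEq x x' p) : ForcesMem x' y p := by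
  obtain ⟨κ, y, b⟩ := y
  intro q hq
  obtain ⟨r, hr, j, hj, h1⟩ := h q hq
  exact ⟨r, hr, j, hj, (hx.mono (hr.trans hq)).symm.trans h1⟩

theorem ForcesMem.congr_right {x y y' : Name P} {p : P} (h : ForcesMem x y p)
    (hy : ForcesEq y y' p) : ForcesMem x y' p := by
  obtain ⟨κ, y, b⟩ := y
  obtain ⟨κ', y', b'⟩ := y'
  intro q hq
  obtain ⟨r, hr, j, hj, h1⟩ := h q hq
  obtain ⟨s, hs, j', hj', h2⟩ := hy.1 j r (hr.trans hq) hj
  exact ⟨s, hs.trans hr, j', hj', (h1.mono hs).trans h2⟩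

theorem ForcesMem.mono {x y : Name P} {p q : P} (hq : q ≤ p) (h : ForcesMem x y p) :
    ForcesMem x y q := (ForcesMem.reg x y).mono hq h

/-- The index type of a name. -/
def Name.Idx : Name P → Type u
  | .mk ι _ _ => ι

/-- The names occurring in a name. -/
def Name.el : (x : Name P) → x.Idx → Name P
  | .mk _ x _ => x

/-- The conditions occurring in a name. -/
def Name.cd : (x : Name P) → x.Idx → P
  | .mk _ _ c => c

theorem forcesMem_iff {x y : Name P} {p : P} : ForcesMem x y p ↔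
    ∀ q ≤ p, ∃ r ≤ q, ∃ j : y.Idx, r ≤ y.cd j ∧ ForcesEq x (y.el j) r := by
  obtain ⟨κ, y, b⟩ := y
  exact Iff.rfl

theorem forcesMem_el (y : Name P) (j : y.Idx) {p : P} (h : p ≤ y.cd j) :
    ForcesMem (y.el j) y p :=
  forcesMem_iff.2 fun q hq => ⟨q, le_rfl, j, hq.trans h, ForcesEq.refl _ _⟩

/-- Extensionality: it suffices to consider the names occurring in `x` and `y`. -/
theorem ForcesEq.ext' {x y : Name P} {p : P}
    (h1 : ∀ i : x.Idx, ∀ q ≤ p, ForcesMem (x.el i) x q → ForcesMem (x.el i) y q)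
    (h2 : ∀ j : y.Idx, ∀ q ≤ p, ForcesMem (y.el j) y q → ForcesMem (y.el j) x q) :
    ForcesEq x y p := by
  obtain ⟨ι, x, a⟩ := x
  obtain ⟨κ, y, b⟩ := y
  refine ⟨fun i q hq hqi => ?_, fun j q hq hqj => ?_⟩
  · exact h1 i q hq (fun r hr => ⟨r, le_rfl, i, hr.trans hqi, ForcesEq.refl _ _⟩) q le_rfl
  · obtain ⟨r, hr, i, hi, h⟩ := h2 j q hq
      (fun r hr => ⟨r, le_rfl, j, hr.trans hqj, ForcesEq.refl _ _⟩) q le_rfl
    exact ⟨r, hr, i, hi, h.symm⟩

/-- Extensionality. -/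
theorem ForcesEq.ext {x y : Name P} {p : P}
    (h1 : ∀ z, ∀ q ≤ p, ForcesMem z x q → ForcesMem z y q)
    (h2 : ∀ z, ∀ q ≤ p, ForcesMem z y q → ForcesMem z x q) : ForcesEq x y p :=
  ForcesEq.ext' (fun _ q hq h => h1 _ q hq h) (fun _ q hq h => h2 _ q hq h)

theorem ForcesEq.mem_iff {x y z : Name P} {p : P} (h : ForcesEq x y p) :
    ForcesMem z x p ↔ ForcesMem z y p := ⟨fun h' => h'.congr_right h, fun h' => h'.congr_right h.symm⟩

end Atomic

/-! ## Formulas -/

/-- The value of a term under an assignment; all terms are variables. -/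
def tval {N : Type*} {n : ℕ} (xs : Fin n → N) : LSet.Term (Empty ⊕ Fin n) → N
  | .var (Sum.inl a) => Empty.elim a
  | .var (Sum.inr i) => xs i
  | .func f _ => Empty.elim f

section Forces

variable {P : Type u} [Preorder P]

/-- The forcing relation `p ⊩ φ(xs)`, where the quantifiers range over the names in `S`. -/
def Forces (S : Set (Name P)) : ∀ {n : ℕ}, Fm n → (Fin n → Name P) → P → Prop
  | _, .falsum, _ => fun _ => False
  | _, .equal t₁ t₂, xs => ForcesEq (tval xs t₁) (tval xs t₂)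
  | _, .rel R ts, xs => match R with
    | .mem => ForcesMem (tval xs (ts 0)) (tval xs (ts 1))
  | _, .imp φ ψ, xs => fun p => ∀ q ≤ p, Forces S φ xs q → Forces S ψ xs q
  | _, .all φ, xs => fun p => ∀ x ∈ S, Forces S φ (Fin.snoc xs x) p

theorem Forces.reg (S : Set (Name P)) {n : ℕ} (φ : Fm n) (xs : Fin n → Name P) :
    Reg (Forces S φ xs) := by
  induction φ with
  | falsum => exact Reg.const False
  | equal t₁ t₂ => exact ForcesEq.reg _ _
  | rel R ts =>
    cases R with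
    | mem => exact ForcesMem.reg _ _
  | imp φ ψ ih1 ih2 => exact Reg.imp (ih1 xs) (ih2 xs)
  | all φ ih => exact Reg.all fun x => Reg.all fun _ => ih (Fin.snoc xs x)

theorem tval_congr {n : ℕ} {xs ys : Fin n → Name P} {p : P}
    (h : ∀ i, ForcesEq (xs i) (ys i) p) (t : LSet.Term (Empty ⊕ Fin n)) :
    ForcesEq (tval xs t) (tval ys t) p := by
  cases t with
  | var a =>
    cases a with
    | inl a => exact Empty.elim a
    | inr i => exact h i
  | func f _ => exact Empty.elim f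

/-- Forced equal names satisfy the same formulas. -/
theorem Forces.congr {S : Set (Name P)} {n : ℕ} (φ : Fm n)
    {xs ys : Fin n → Name P} {p : P} (h : ∀ i, ForcesEq (xs i) (ys i) p) :
    Forces S φ xs p ↔ Forces S φ ys p := by
  suffices H : ∀ {xs ys : Fin n → Name P} {p : P}, (∀ i, ForcesEq (xs i) (ys i) p) →
      Forces S φ xs p → Forces S φ ys p from ⟨H h, H fun i => (h i).symm⟩
  clear h xs ys p
  induction φ with
  | falsum => exact fun _ h => h
  | equal t₁ t₂ =>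
    intro xs ys p h h'
    exact ((tval_congr h t₁).symm.trans h').trans (tval_congr h t₂)
  | rel R ts =>
    intro xs ys p h h'
    cases R with
    | mem => exact (ForcesMem.congr_left h' (tval_congr h _)).congr_right (tval_congr h _)
  | imp φ ψ ih1 ih2 =>
    intro xs ys p h h' q hq h1
    exact ih2 (fun i => (h i).mono hq) (h' q hq (ih1 (fun i => ((h i).mono hq).symm) h1))
  | all φ ih =>
    intro xs ys p h h' x hx
    refine ih (fun i => ?_) (h' x hx)
    refine Fin.lastCases ?_ (fun i => ?_) i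
    · rw [Fin.snoc_last, Fin.snoc_last]
      exact ForcesEq.refl _ _
    · rw [Fin.snoc_castSucc, Fin.snoc_castSucc]
      exact h i

end Forces

/-! ## Variables, connectives and quantifiers -/

/-- An old variable, seen under one more quantifier. -/
def up {n : ℕ} (i : Fin n) : Fin (n + 1) := i.castSucc

/-- The variable bound by the innermost quantifier. -/
def nw {n : ℕ} : Fin (n + 1) := Fin.last n

@[simp] theorem sn_up {N : Type*} {n : ℕ} (xs : Fin n → N) (x : N) (i : Fin n) :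
    sn xs x (up i) = xs i :=
  Fin.snoc_castSucc (α := fun _ => N) x xs i

@[simp] theorem sn_nw {N : Type*} {n : ℕ} (xs : Fin n → N) (x : N) : sn xs x nw = x :=
  Fin.snoc_last (α := fun _ => N) x xs

/-- `i ∈ j`. -/
def fMem {n : ℕ} (i j : Fin n) : Fm n :=
  BoundedFormula.rel (MemSymbol.mem : LSet.Relations 2)
    ![Term.var (Sum.inr i), Term.var (Sum.inr j)]

/-- `i = j`. -/
def fEq {n : ℕ} (i j : Fin n) : Fm n :=
  BoundedFormula.equal (Term.var (Sum.inr i)) (Term.var (Sum.inr j))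

section Basic

variable {P : Type u} [Preorder P] {S : Set (Name P)} {n : ℕ} {xs : Fin n → Name P} {p : P}

theorem Forces.mono {φ : Fm n} {q : P} (hq : q ≤ p) (h : Forces S φ xs p) : Forces S φ xs q :=
  (Forces.reg S φ xs).mono hq h

theorem forces_mem {i j : Fin n} : Forces S (fMem i j) xs p ↔ ForcesMem (xs i) (xs j) p := Iff.rfl

theorem forces_eq {i j : Fin n} : Forces S (fEq i j) xs p ↔ ForcesEq (xs i) (xs j) p := Iff.rfl

theorem forces_falsum : Forces S (⊥ : Fm n) xs p ↔ False := Iff.rfl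

theorem forces_imp {φ ψ : Fm n} :
    Forces S (φ ⟹ ψ) xs p ↔ ∀ q ≤ p, Forces S φ xs q → Forces S ψ xs q := Iff.rfl

theorem forces_all {φ : Fm (n + 1)} :
    Forces S (∀' φ) xs p ↔ ∀ x ∈ S, Forces S φ (sn xs x) p := Iff.rfl

theorem forces_not {φ : Fm n} : Forces S (∼φ) xs p ↔ ∀ q ≤ p, ¬ Forces S φ xs q := Iff.rfl

theorem forces_and {φ ψ : Fm n} :
    Forces S (φ ⊓ ψ) xs p ↔ Forces S φ xs p ∧ Forces S ψ xs p := by
  have hφ := Forces.reg S φ xs
  have hψ := Forces.reg S ψ xs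
  constructor
  · intro h
    have h' : ∀ q ≤ p, ¬ ∀ r ≤ q, Forces S φ xs r → ∀ s ≤ r, ¬ Forces S ψ xs s := h
    refine ⟨hφ.dense fun q hq => ?_, hψ.dense fun q hq => ?_⟩
    · by_contra hcon
      exact h' q hq fun r hr h1 => absurd ⟨r, hr, h1⟩ hcon
    · by_contra hcon
      exact h' q hq fun r hr _ s hs h2 => hcon ⟨s, hs.trans hr, h2⟩
  · rintro ⟨h1, h2⟩ q hq h3
    exact h3 q le_rfl (hφ.mono hq h1) q le_rfl (hψ.mono hq h2)

theorem forces_or {φ ψ : Fm n} :
    Forces S (φ ⊔ ψ) xs p ↔ ∀ q ≤ p, ∃ r ≤ q, Forces S φ xs r ∨ Forces S ψ xs r := by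
  have hφ := Forces.reg S φ xs
  have hψ := Forces.reg S ψ xs
  constructor
  · intro h q hq
    rcases hφ.em q with h1 | ⟨r, hr, h1⟩
    · exact ⟨q, le_rfl, Or.inl h1⟩
    · exact ⟨r, hr, Or.inr (h r (hr.trans hq) h1)⟩
  · intro h q hq h1
    refine hψ.dense fun r hr => ?_
    obtain ⟨s, hs, h2 | h2⟩ := h r (hr.trans hq)
    · exact absurd h2 (h1 s (hs.trans hr))
    · exact ⟨s, hs, h2⟩

theorem forces_ex {φ : Fm (n + 1)} :
    Forces S (∃' φ) xs p ↔ ∀ q ≤ p, ∃ r ≤ q, ∃ x ∈ S, Forces S φ (sn xs x) r := by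
  constructor
  · intro h q hq
    have h' : ¬ ∀ x ∈ S, ∀ r ≤ q, ¬ Forces S φ (sn xs x) r := h q hq
    push Not at h'
    obtain ⟨x, hx, r, hr, h1⟩ := h'
    exact ⟨r, hr, x, hx, h1⟩
  · intro h q hq h'
    obtain ⟨r, hr, x, hx, h1⟩ := h q hq
    exact h' x hx r hr h1

theorem forces_ex_of {φ : Fm (n + 1)} {x : Name P} (hx : x ∈ S) (h : Forces S φ (sn xs x) p) :
    Forces S (∃' φ) xs p :=
  forces_ex.2 fun q hq => ⟨q, le_rfl, x, hx, h.mono hq⟩

theorem forces_iff {φ ψ : Fm n} :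
    Forces S (φ ⇔ ψ) xs p ↔ ∀ q ≤ p, (Forces S φ xs q ↔ Forces S ψ xs q) := by
  have h : Forces S (φ ⇔ ψ) xs p ↔ Forces S (φ ⟹ ψ) xs p ∧ Forces S (ψ ⟹ φ) xs p := forces_and
  rw [h, forces_imp, forces_imp]
  exact ⟨fun h q hq => ⟨h.1 q hq, h.2 q hq⟩, fun h => ⟨fun q hq => (h q hq).1,
    fun q hq => (h q hq).2⟩⟩

theorem forces_not_of {φ : Fm n} (h : ∀ q ≤ p, Forces S φ xs q → False) : Forces S (∼φ) xs p := h

/-- Replace the last value of an assignment by a forced equal one. -/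
theorem forces_sn_congr {φ : Fm (n + 1)} {x y : Name P} (h : ForcesEq x y p) :
    Forces S φ (sn xs x) p ↔ Forces S φ (sn xs y) p := by
  refine Forces.congr φ fun i => ?_
  refine Fin.lastCases ?_ (fun i => ?_) i
  · have h1 : sn xs x (Fin.last n) = x := sn_nw xs x
    have h2 : sn xs y (Fin.last n) = y := sn_nw xs y
    rw [h1, h2]
    exact h
  · have h1 : sn xs x i.castSucc = xs i := sn_up xs x i
    have h2 : sn xs y i.castSucc = xs i := sn_up xs y i
    rw [h1, h2]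
    exact ForcesEq.refl _ _

/-- Decide a formula. -/
theorem forces_em (S : Set (Name P)) (φ : Fm n) (xs : Fin n → Name P) (p : P) :
    ∃ q ≤ p, Forces S φ xs q ∨ Forces S (∼φ) xs q := by
  rcases (Forces.reg S φ xs).em p with h | ⟨q, hq, h⟩
  · exact ⟨p, le_rfl, Or.inl h⟩
  · exact ⟨q, hq, Or.inr h⟩

end Basic

end Pool.Agent.helper60.FcU
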