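import Mathlib
import Pool.Agent.helper60.FcU.ZFForced

set_option autoImplicit false

universe u

/-!
# Choice, and models of ZF and ZFC
-/

open FirstOrder FirstOrder.Language

namespace Pool.Agent.helper60.FcU

section Choice

variable {P : Type u} [Preorder P] [OrderTop P]

/-- The members of `x` are nonempty. -/
def axNe : Fm 1 := ∀' (fMem nw (up 0) ⟹ ∃' fMem nw (up nw))

/-- Members of `x` with a common element are equal. -/
def axDj : Fm 1 := ∀' ∀' (((fMem (up nw) (up (up 0)) ⊓ fMem nw (up (up 0))) ⊓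
  ∃' (fMem nw (up (up nw)) ⊓ fMem nw (up nw))) ⟹ fEq (up nw) nw)

/-- `x` has a choice set. -/
def axCh : Fm 1 := ∃' ∀' (fMem nw (up (up 0)) ⟹
  ∃' ((fMem nw (up nw) ⊓ fMem nw (up (up nw))) ⊓
    ∀' ((fMem nw (up (up nw)) ⊓ fMem nw (up (up (up nw)))) ⟹ fEq nw (up nw))))

/-- Choice. -/
def axChoice : Fm 1 := (axNe ⊓ axDj) ⟹ axCh

omit [OrderTop P] in
theorem forces_axChoice (xs : Fin 1 → Name P) (p : P) : Forces Set.univ axChoice xs p := by
  classical
  intro q _ hyp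
  obtain ⟨hne, hdj⟩ := forces_and.1 hyp
  set x := xs 0 with hx
  let K := Σ i : x.Idx, (x.el i).Idx
  let b : K → Name P := fun k => (x.el k.1).el k.2
  obtain ⟨_, _⟩ : ∃ _ : LinearOrder K, WellFoundedLT K :=
    ⟨linearOrderOfSTO (WellOrderingRel (α := K)),
      ⟨(IsWellFounded.wf : WellFounded (WellOrderingRel (α := K)))⟩⟩
  have hne' : ∀ u, ∀ r ≤ q, ForcesMem u x r → ∃ s ≤ r, ∃ t, ForcesMem t u s := by
    intro u r hr hu
    have h1 := forces_all.1 hne u (Set.mem_univ _) r hr (by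
      rw [forces_mem, sn_nw, sn_up]; exact hu)
    obtain ⟨s, hs, t, -, ht⟩ := forces_ex.1 h1 r le_rfl
    rw [forces_mem, sn_nw, sn_up, sn_nw] at ht
    exact ⟨s, hs, t, ht⟩
  have hdj' : ∀ u v t, ∀ r ≤ q, ForcesMem u x r → ForcesMem v x r → ForcesMem t u r →
      ForcesMem t v r → ForcesEq u v r := by
    intro u v t r hr hu hv htu htv
    have h1 := forces_all.1 (forces_all.1 hdj u (Set.mem_univ _)) v (Set.mem_univ _) r hr
      (forces_and.2 ⟨forces_and.2 ⟨?_, ?_⟩, forces_ex_of (Set.mem_univ t)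
        (forces_and.2 ⟨?_, ?_⟩)⟩)
    · rw [forces_eq] at h1
      simp only [sn_nw, sn_up] at h1
      exact h1
    · rw [forces_mem]
      simp only [sn_nw, sn_up]
      exact hu
    · rw [forces_mem]
      simp only [sn_nw, sn_up]
      exact hv
    · rw [forces_mem]
      simp only [sn_nw, sn_up]
      exact htu
    · rw [forces_mem]
      simp only [sn_nw, sn_up]
      exact htv
  let C : K → x.Idx → P → Prop := fun k i r => ForcesMem (x.el i) x r ∧
    ForcesMem (b k) (x.el i) r ∧ ∀ k' < k, ∀ s ≤ r, ¬ ForcesMem (b k') (x.el i) s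
  let c : Name P := .mk {t : (K × x.Idx) × P // C t.1.1 t.1.2 t.2} (fun t => b t.1.1.1)
    (fun t => t.1.2)
  refine forces_ex_of (Set.mem_univ c) ?_
  rw [forces_all]
  intro u _
  rw [forces_imp]
  intro q₁ hq₁ hu
  rw [forces_mem] at hu
  simp only [sn_nw, sn_up] at hu
  rw [forces_ex]
  intro r hr
  obtain ⟨s, hs, i, hsi, hui⟩ := forcesMem_iff.1 hu r hr
  have hsq : s ≤ q := (hs.trans hr).trans hq₁
  have hxi : ForcesMem (x.el i) x s := forcesMem_el x i hsi
  -- the set of possible elements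
  have hnonempty : {k : K | ∃ s' ≤ s, ForcesMem (b k) (x.el i) s'}.Nonempty := by
    obtain ⟨s', hs', t, ht⟩ := hne' (x.el i) s hsq hxi
    obtain ⟨s'', hs'', j, hj, -⟩ := forcesMem_iff.1 ht s' le_rfl
    exact ⟨⟨i, j⟩, s'', hs''.trans hs', forcesMem_el (x.el i) j hj⟩
  obtain ⟨k₀, ⟨s₀, hs₀, hb₀⟩, hmin⟩ := WellFounded.has_min (wellFounded_lt (α := K)) _ hnonempty
  have hmin' : ∀ k' < k₀, ∀ s' ≤ s, ¬ ForcesMem (b k') (x.el i) s' :=
    fun k' hk' s' hs' h => hmin k' ⟨s', hs', h⟩ hk'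
  have hC₀ : C k₀ i s₀ := ⟨hxi.mono hs₀, hb₀, fun k' hk' s' hs' => hmin' k' hk' s' (hs'.trans hs₀)⟩
  have hbc : ForcesMem (b k₀) c s₀ := by
    intro r' hr'
    exact ⟨r', le_rfl, ⟨((k₀, i), s₀), hC₀⟩, hr', ForcesEq.refl _ _⟩
  have hui₀ := hui.mono hs₀
  refine ⟨s₀, hs₀.trans hs, b k₀, Set.mem_univ _, forces_and.2 ⟨forces_and.2 ⟨?_, ?_⟩, ?_⟩⟩
  · rw [forces_mem]
    simp only [sn_nw, sn_up]
    exact hb₀.congr_right hui₀.symm
  · rw [forces_mem]
    simp only [sn_nw, sn_up]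
    exact hbc
  · rw [forces_all]
    intro t _
    rw [forces_imp]
    intro r₁ hr₁ ht
    obtain ⟨htu, htc⟩ := forces_and.1 ht
    rw [forces_mem] at htu htc
    rw [forces_eq]
    simp only [sn_nw, sn_up] at htu htc ⊢
    refine (ForcesEq.reg _ _).dense fun r₂ hr₂ => ?_
    obtain ⟨r₃, hr₃, ⟨⟨⟨k, i'⟩, s'⟩, hC⟩, hle, heq⟩ := htc r₂ hr₂
    refine ⟨r₃, hr₃, ?_⟩
    have h31 : r₃ ≤ r₁ := hr₃.trans hr₂
    have h30 : r₃ ≤ s₀ := h31.trans hr₁
    have hle' : r₃ ≤ s' := hle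
    have heq' : ForcesEq t (b k) r₃ := heq
    obtain ⟨c1, c2, c3⟩ := hC
    have c1' : ForcesMem (x.el i') x r₃ := ForcesMem.mono hle' c1
    have c2' : ForcesMem (b k) (x.el i') r₃ := ForcesMem.mono hle' c2
    have e1 : ForcesEq u (x.el i) r₃ := hui₀.mono h30
    have e2 : ForcesMem (b k) (x.el i) r₃ := ((htu.mono h31).congr_left heq').congr_right e1
    have e3 : ForcesEq (x.el i') (x.el i) r₃ :=
      hdj' _ _ (b k) r₃ ((h30.trans hs₀).trans hsq) c1' (hxi.mono (h30.trans hs₀)) c2' e2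
    have hkk : k = k₀ := by
      rcases lt_trichotomy k k₀ with h | h | h
      · exact absurd e2 (hmin' k h r₃ (h30.trans hs₀))
      · exact h
      · exact absurd ((hb₀.mono h30).congr_right e3.symm) (c3 k₀ h r₃ hle')
    rw [← hkk]
    exact heq'

end Choice

section ZF

variable {P : Type u} [Preorder P] [OrderTop P] {S : Set (Name P)}

/-- A countable model given by a generic sequence of conditions. -/
structure Gen (S : Set (Name P)) (p₀ : P) where
  /-- the underlying set -/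
  M : Type
  /-- the membership relation -/
  E : M → M → Prop
  /-- the conditions -/
  p : ℕ → P
  /-- the names -/
  X : ℕ → Name P
  /-- the enumeration of the model -/
  c : ℕ → M
  surj : Function.Surjective c
  zero : p 0 = p₀
  mono : ∀ k l, k ≤ l → p l ≤ p k
  mem : ∀ i, X i ∈ S
  sat : ∀ (n : ℕ) (φ : Fm n) (a : Fin n → ℕ),
    Sat E φ (fun i => c (a i)) ↔ ∃ k, Forces S φ (fun i => X (a i)) (p k)

theorem exists_gen (hS : NameUniv S) (p₀ : P) : Nonempty (Gen S p₀) := by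
  obtain ⟨M, E, p, X, c, h1, h2, h3, h4, h5⟩ := exists_model hS.om p₀
  exact ⟨⟨M, E, p, X, c, h1, h2, h3, h4, h5⟩⟩

variable {p₀ : P}

omit [OrderTop P] in
theorem Gen.of_forces (G : Gen S p₀) {n : ℕ} {φ : Fm n}
    (h : ∀ xs : Fin n → Name P, (∀ i, xs i ∈ S) → Forces S φ xs p₀) (a : Fin n → G.M) :
    Sat G.E φ a := by
  choose a' ha' using fun i => G.surj (a i)
  have : a = fun i => G.c (a' i) := funext fun i => (ha' i).symm
  rw [this, G.sat]
  exact ⟨0, by rw [G.zero]; exact h _ fun i => G.mem _⟩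

theorem Gen.isZF (hS : NameUniv S) (G : Gen S p₀) : IsZF G.E := by
  have hsep : ∀ (n : ℕ) (φ : Fm (n + 1)) (a : Fin n → G.M) (x : G.M),
      ∃ y, ∀ z, G.E z y ↔ G.E z x ∧ Sat G.E φ (sn a z) := by
    intro n φ a x
    obtain ⟨y, hy⟩ := sat_ex.1 (G.of_forces (fun xs hxs => forces_axSep hS φ xs hxs p₀) (sn a x))
    refine ⟨y, fun z => ?_⟩
    have h1 := sat_iff.1 (sat_all.1 hy z)
    rw [sat_and, sat_ren, sat_mem, sat_mem, sn_comp (sn _ z)] at h1
    simp only [sn_nw, sn_up] at h1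
    exact h1
  refine ⟨?_, ?_, ?_, ?_, ?_, ?_, hsep, ?_⟩
  · intro x y h
    refine sat_imp.1 (G.of_forces (fun xs hxs => forces_axExt hS xs hxs p₀) ![x, y])
      (sat_all.2 fun z => sat_iff.2 ?_)
    rw [sat_mem, sat_mem]
    simp only [sn_nw, sn_up]
    exact h z
  · intro x ⟨y, hy⟩
    obtain ⟨z, hz⟩ := sat_ex.1 (G.of_forces (fun xs _ => forces_axFound hS xs p₀) (fun _ => x)
      (sat_ex.2 ⟨y, hy⟩))
    rw [sat_and, sat_mem] at hz
    simp only [sn_nw, sn_up] at hz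
    refine ⟨z, hz.1, fun t ht => ?_⟩
    have h1 := sat_all.1 hz.2 t
    rw [sat_not, sat_and, sat_mem, sat_mem] at h1
    simp only [sn_nw, sn_up] at h1
    exact h1 ht
  · intro x y
    obtain ⟨z, hz⟩ := sat_ex.1 (G.of_forces (fun xs hxs => forces_axPair hS xs hxs p₀) ![x, y])
    rw [sat_and, sat_mem, sat_mem] at hz
    simp only [sn_nw, sn_up] at hz
    obtain ⟨w, hw⟩ := hsep 2 (fEq nw (up 0) ⊔ fEq nw (up 1)) ![x, y] z
    refine ⟨w, fun t => ?_⟩
    rw [hw, sat_or, sat_eq, sat_eq]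
    simp only [sn_nw, sn_up]
    constructor
    · exact fun h => h.2
    · intro h
      refine ⟨?_, h⟩
      rcases h with h | h
      · rw [h]; exact hz.1
      · rw [h]; exact hz.2
  · intro x
    obtain ⟨y, hy⟩ := sat_ex.1 (G.of_forces (fun xs hxs => forces_axUnion hS xs hxs p₀)
      (fun _ => x))
    obtain ⟨w, hw⟩ := hsep 1 (∃' (fMem nw (up (up 0)) ⊓ fMem (up nw) nw)) (fun _ => x) y
    refine ⟨w, fun z => ?_⟩
    rw [hw, sat_ex]
    simp only [sat_and, sat_mem, sn_nw, sn_up]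
    constructor
    · exact fun h => h.2
    · rintro ⟨u, h1, h2⟩
      refine ⟨?_, u, h1, h2⟩
      have h3 := sat_imp.1 (sat_all.1 hy u)
      rw [sat_mem] at h3
      simp only [sn_nw, sn_up] at h3
      have h4 := sat_imp.1 (sat_all.1 (h3 h1) z)
      rw [sat_mem, sat_mem] at h4
      simp only [sn_nw, sn_up] at h4
      exact h4 h2
  · intro x
    obtain ⟨y, hy⟩ := sat_ex.1 (G.of_forces (fun xs hxs => forces_axPower hS xs hxs p₀)
      (fun _ => x))
    obtain ⟨w, hw⟩ := hsep 1 (∀' (fMem nw (up nw) ⟹ fMem nw (up (up 0)))) (fun _ => x) y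
    refine ⟨w, fun z => ?_⟩
    rw [hw, sat_all]
    simp only [sat_imp, sat_mem, sn_nw, sn_up]
    constructor
    · exact fun h => h.2
    · intro h
      refine ⟨?_, h⟩
      have h3 := sat_imp.1 (sat_all.1 hy z)
      rw [sat_all, sat_mem] at h3
      simp only [sat_imp, sat_mem, sn_nw, sn_up] at h3
      exact h3 h
  · have h := G.of_forces (fun xs _ => forces_axInf hS xs p₀) Fin.elim0
    unfold axInf at h
    rw [sat_ex] at h
    simp only [sat_and, sat_ex, sat_all, sat_imp, sat_not, sat_iff, sat_or, sat_mem, sat_eq, sn_nw,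
      sn_up] at h
    exact h
  · intro n φ a x hx
    obtain ⟨y, hy⟩ := sat_ex.1 (G.of_forces (fun xs _ => forces_axColl hS φ xs p₀) (sn a x))
    have hy' : ∀ u, G.E u x → (∃ v, Sat G.E φ (sn (sn a u) v)) →
        ∃ v, G.E v y ∧ Sat G.E φ (sn (sn a u) v) := by
      intro u hu hv
      have h1 := sat_imp.1 (sat_all.1 hy u)
      rw [sat_imp, sat_mem, sat_ex, sat_ex] at h1
      simp only [sat_and, sat_ren, sat_mem] at h1
      simp only [sn_comp (sn _ _)] at h1
      simp only [sn_nw, sn_up] at h1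
      exact h1 hu hv
    obtain ⟨w, hw⟩ := hsep (n + 1) (∃' (fMem nw (up (up nw)) ⊓
      ren (sn (sn (fun i => up (up (up i))) nw) (up nw)) φ)) (sn a x) y
    refine ⟨w, fun v => ?_⟩
    rw [hw, sat_ex]
    simp only [sat_and, sat_ren, sat_mem]
    simp only [sn_comp (sn _ _)]
    simp only [sn_nw, sn_up]
    constructor
    · exact fun h => h.2
    · rintro ⟨u, h1, h2⟩
      refine ⟨?_, u, h1, h2⟩
      obtain ⟨v', h3, h4⟩ := hy' u h1 ⟨v, h2⟩
      obtain ⟨v'', -, h5⟩ := hx u h1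
      rw [h5 v h2, ← h5 v' h4]
      exact h3

/-- For the class of all names we get a model of ZFC. -/
theorem Gen.isZFC (G : Gen (Set.univ : Set (Name P)) p₀) : IsZFC G.E := by
  refine ⟨G.isZF nameUniv_univ, fun x h1 h2 => ?_⟩
  have h := G.of_forces (fun xs _ => forces_axChoice xs p₀) (fun _ => x)
  unfold axChoice axNe axDj axCh at h
  rw [sat_imp] at h
  simp only [sat_and, sat_ex, sat_all, sat_imp, sat_mem, sat_eq, sn_nw, sn_up] at h
  have h3 : ∀ u v, (G.E u x ∧ G.E v x) ∧ (∃ t, G.E t u ∧ G.E t v) → u = v := by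
    intro u v huv
    by_contra hne
    exact h2 u v huv.1.1 huv.1.2 hne huv.2
  obtain ⟨c, hc⟩ := h ⟨h1, h3⟩
  refine ⟨c, fun u hu => ?_⟩
  obtain ⟨t, ht1, ht2⟩ := hc u hu
  exact ⟨t, ht1, fun t' ht' => ht2 t' ht'⟩

end ZF

end Pool.Agent.helper60.FcU
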