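import Mathlib
import Pool.Agent.helper60.FcU.ZFCModel

set_option autoImplicit false

universe u

/-!
# Pairs, ordered pairs and ordinals
-/

open FirstOrder FirstOrder.Language

namespace Pool.Agent.helper60.FcU

section Names

variable {P : Type u} [Preorder P] [OrderTop P] {p : P}

/-- The name for `{x, y}`. -/
def upN (x y : Name P) : Name P := ck (fun b : ULift.{u} Bool => cond b.down x y)

theorem mem_upN {x y z : Name P} :
    ForcesMem z (upN x y) p ↔ ∀ q ≤ p, ∃ r ≤ q, ForcesEq z x r ∨ ForcesEq z y r := by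
  unfold upN
  rw [mem_ck]
  refine forall_congr' fun q => forall_congr' fun _ => exists_congr fun r =>
    and_congr_right fun _ => ?_
  constructor
  · rintro ⟨b, hb⟩
    obtain ⟨b⟩ := b
    cases b with
    | true => exact Or.inl hb
    | false => exact Or.inr hb
  · rintro (h | h)
    · exact ⟨⟨true⟩, h⟩
    · exact ⟨⟨false⟩, h⟩

theorem mem_upN_left (x y : Name P) (p : P) : ForcesMem x (upN x y) p :=
  mem_upN.2 fun q _ => ⟨q, le_rfl, Or.inl (ForcesEq.refl _ _)⟩

theorem mem_upN_right (x y : Name P) (p : P) : ForcesMem y (upN x y) p :=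
  mem_upN.2 fun q _ => ⟨q, le_rfl, Or.inr (ForcesEq.refl _ _)⟩

theorem mem_upN_self {x z : Name P} : ForcesMem z (upN x x) p ↔ ForcesEq z x p := by
  constructor
  · intro h
    refine (ForcesEq.reg _ _).dense fun q hq => ?_
    obtain ⟨r, hr, h1⟩ := mem_upN.1 h q hq
    exact ⟨r, hr, h1.elim id id⟩
  · exact fun h => (mem_upN_left x x p).congr_left h.symm

theorem upN_congr {x y x' y' : Name P} (h : ForcesEq x x' p) (h' : ForcesEq y y' p) :
    ForcesEq (upN x y) (upN x' y') p := by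
  refine ForcesEq.ext (fun z q hq hz => ?_) (fun z q hq hz => ?_)
  · refine mem_upN.2 fun r hr => ?_
    obtain ⟨s, hs, h1⟩ := mem_upN.1 hz r hr
    refine ⟨s, hs, h1.imp (fun h2 => h2.trans ?_) (fun h2 => h2.trans ?_)⟩
    · exact h.mono ((hs.trans hr).trans hq)
    · exact h'.mono ((hs.trans hr).trans hq)
  · refine mem_upN.2 fun r hr => ?_
    obtain ⟨s, hs, h1⟩ := mem_upN.1 hz r hr
    refine ⟨s, hs, h1.imp (fun h2 => h2.trans ?_) (fun h2 => h2.trans ?_)⟩
    · exact (h.mono ((hs.trans hr).trans hq)).symm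
    · exact (h'.mono ((hs.trans hr).trans hq)).symm

theorem upN_comm (x y : Name P) (p : P) : ForcesEq (upN x y) (upN y x) p := by
  refine ForcesEq.ext (fun z q _ hz => ?_) (fun z q _ hz => ?_)
  · refine mem_upN.2 fun r hr => ?_
    obtain ⟨s, hs, h1⟩ := mem_upN.1 hz r hr
    exact ⟨s, hs, h1.symm⟩
  · refine mem_upN.2 fun r hr => ?_
    obtain ⟨s, hs, h1⟩ := mem_upN.1 hz r hr
    exact ⟨s, hs, h1.symm⟩

/-- Equal pairs. -/
theorem upN_inj {x y x' y' : Name P} (h : ForcesEq (upN x y) (upN x' y') p) :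
    ∃ q ≤ p, (ForcesEq x x' q ∧ ForcesEq y y' q) ∨ (ForcesEq x y' q ∧ ForcesEq y x' q) := by
  have h1 : ForcesMem x (upN x' y') p := (mem_upN_left x y p).congr_right h
  have h2 : ForcesMem y (upN x' y') p := (mem_upN_right x y p).congr_right h
  have h3 : ForcesMem x' (upN x y) p := (mem_upN_left x' y' p).congr_right h.symm
  have h4 : ForcesMem y' (upN x y) p := (mem_upN_right x' y' p).congr_right h.symm
  obtain ⟨q₁, hq₁, e1⟩ := mem_upN.1 h1 p le_rfl
  obtain ⟨q₂, hq₂, e2⟩ := mem_upN.1 h2 q₁ hq₁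
  obtain ⟨q₃, hq₃, e3⟩ := mem_upN.1 h3 q₂ (hq₂.trans hq₁)
  obtain ⟨q₄, hq₄, e4⟩ := mem_upN.1 h4 q₃ ((hq₃.trans hq₂).trans hq₁)
  have e1' := e1.imp (ForcesEq.mono ((hq₄.trans hq₃).trans hq₂))
    (ForcesEq.mono ((hq₄.trans hq₃).trans hq₂))
  have e2' := e2.imp (ForcesEq.mono (hq₄.trans hq₃)) (ForcesEq.mono (hq₄.trans hq₃))
  have e3' := e3.imp (ForcesEq.mono hq₄) (ForcesEq.mono hq₄)
  refine ⟨q₄, ((hq₄.trans hq₃).trans hq₂).trans hq₁, ?_⟩
  rcases e1' with a | a <;> rcases e2' with b | b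
  · -- x = x', y = x'
    rcases e4 with c | c
    · exact Or.inl ⟨a, b.trans (a.symm.trans c.symm)⟩
    · exact Or.inl ⟨a, c.symm⟩
  · exact Or.inl ⟨a, b⟩
  · exact Or.inr ⟨a, b⟩
  · -- x = y', y = y'
    rcases e3' with c | c
    · exact Or.inl ⟨c.symm, b⟩
    · exact Or.inr ⟨a, c.symm⟩

/-- The name for the ordered pair `(x, y) = {{x}, {x, y}}`. -/
def opN (x y : Name P) : Name P := upN (upN x x) (upN x y)

theorem opN_congr {x y x' y' : Name P} (h : ForcesEq x x' p) (h' : ForcesEq y y' p) :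
    ForcesEq (opN x y) (opN x' y') p := upN_congr (upN_congr h h) (upN_congr h h')

theorem opN_inj {x y x' y' : Name P} :
    ForcesEq (opN x y) (opN x' y') p ↔ ForcesEq x x' p ∧ ForcesEq y y' p := by
  refine ⟨fun h => ?_, fun h => opN_congr h.1 h.2⟩
  have hx : ForcesEq x x' p := by
    refine (ForcesEq.reg _ _).dense fun q hq => ?_
    obtain ⟨r, hr, ⟨h1, -⟩ | ⟨h1, -⟩⟩ := upN_inj (h.mono hq)
    · exact ⟨r, hr, mem_upN_self.1 ((mem_upN_left x x r).congr_right h1)⟩
    · have := mem_upN_self.1 ((mem_upN_left x' y' r).congr_right h1.symm)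
      exact ⟨r, hr, this.symm⟩
  refine ⟨hx, (ForcesEq.reg _ _).dense fun q hq => ?_⟩
  have hx' := hx.mono hq
  obtain ⟨r, hr, ⟨-, h2⟩ | ⟨h1, h2⟩⟩ := upN_inj (h.mono hq)
  · obtain ⟨s, hs, ⟨-, h3⟩ | ⟨h3, h4⟩⟩ := upN_inj h2
    · exact ⟨s, hs.trans hr, h3⟩
    · exact ⟨s, hs.trans hr, h4.trans ((hx'.mono (hs.trans hr)).symm.trans h3)⟩
  · -- {x} = {x', y'}, {x, y} = {x'}
    have e1 : ForcesEq y x' r := mem_upN_self.1 ((mem_upN_right x y r).congr_right h2)
    have e2 : ForcesEq y' x r := mem_upN_self.1 ((mem_upN_right x' y' r).congr_right h1.symm)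
    exact ⟨r, hr, e1.trans ((hx'.mono hr).symm.trans e2.symm)⟩

/-- The canonical names for the ordinals. -/
noncomputable def oN (P : Type u) [Preorder P] [OrderTop P] (o : Ordinal.{u}) : Name P :=
  ck (fun i : o.ToType => oN P (Ordinal.ToType.toOrd i).1)
termination_by o
decreasing_by exact (Ordinal.ToType.toOrd i).2

theorem oN_def (o : Ordinal.{u}) :
    oN P o = ck (fun i : o.ToType => oN P (Ordinal.ToType.toOrd i).1) := by
  rw [oN]

theorem mem_oN {z : Name P} {o : Ordinal.{u}} :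
    ForcesMem z (oN P o) p ↔ ∀ q ≤ p, ∃ r ≤ q, ∃ i < o, ForcesEq z (oN P i) r := by
  rw [oN_def, mem_ck]
  refine forall_congr' fun q => forall_congr' fun _ => exists_congr fun r =>
    and_congr_right fun _ => ?_
  constructor
  · rintro ⟨i, hi⟩
    exact ⟨_, (Ordinal.ToType.toOrd i).2, hi⟩
  · rintro ⟨i, h1, h2⟩
    refine ⟨Ordinal.ToType.mk ⟨i, h1⟩, ?_⟩
    rw [Ordinal.ToType.toOrd, OrderIso.symm_apply_apply]
    exact h2

theorem oN_mem_oN_of_lt {i j : Ordinal.{u}} (h : i < j) (p : P) : ForcesMem (oN P i) (oN P j) p :=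
  mem_oN.2 fun q _ => ⟨q, le_rfl, i, h, ForcesEq.refl _ _⟩

theorem not_oN_mem_self (o : Ordinal.{u}) : ∀ p : P, ¬ ForcesMem (oN P o) (oN P o) p := by
  induction o using WellFoundedLT.induction with
  | _ o ih =>
    intro p h
    obtain ⟨r, hr, k, hk, h1⟩ := mem_oN.1 h p le_rfl
    exact ih k hk r ((oN_mem_oN_of_lt hk r).congr_right h1)

theorem oN_eq_oN {i j : Ordinal.{u}} : ForcesEq (oN P i) (oN P j) p ↔ i = j := by
  constructor
  · intro h
    rcases lt_trichotomy i j with h1 | h1 | h1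
    · exact absurd ((oN_mem_oN_of_lt h1 p).congr_right h.symm) (not_oN_mem_self i p)
    · exact h1
    · exact absurd ((oN_mem_oN_of_lt h1 p).congr_right h) (not_oN_mem_self j p)
  · rintro rfl
    exact ForcesEq.refl _ _

theorem oN_mem_oN {i j : Ordinal.{u}} : ForcesMem (oN P i) (oN P j) p ↔ i < j := by
  constructor
  · intro h
    obtain ⟨r, hr, k, hk, h1⟩ := mem_oN.1 h p le_rfl
    rw [oN_eq_oN.1 h1]
    exact hk
  · exact fun h => oN_mem_oN_of_lt h p

end Names

/-! ### Formulas -/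

/-- `u = {x, y}`. -/
def fUpair {n : ℕ} (u x y : Fin n) : Fm n :=
  ∀' ((fMem nw (up u)) ⇔ (fEq nw (up x) ⊔ fEq nw (up y)))

/-- `z = (x, y)` is the Kuratowski ordered pair `{{x}, {x, y}}`. -/
def fOpair {n : ℕ} (z x y : Fin n) : Fm n :=
  ∀' ((fMem nw (up z)) ⇔ (fUpair nw (up x) (up x) ⊔ fUpair nw (up x) (up y)))

/-- `(x, y) ∈ f`. -/
def fApp {n : ℕ} (f x y : Fin n) : Fm n := ∃' (fMem nw (up f) ⊓ fOpair nw (up x) (up y))

section Univ

variable {P : Type u} [Preorder P] [OrderTop P] {p : P} {n : ℕ} {xs : Fin n → Name P}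

/-- Forcing with all names. -/
abbrev Fo (φ : Fm n) (xs : Fin n → Name P) (p : P) : Prop := Forces Set.univ φ xs p

omit [OrderTop P] in
theorem fo_all {φ : Fm (n + 1)} : Fo (∀' φ) xs p ↔ ∀ x, Fo φ (sn xs x) p :=
  ⟨fun h x => h x (Set.mem_univ x), fun h x _ => h x⟩

omit [OrderTop P] in
theorem fo_ex {φ : Fm (n + 1)} : Fo (∃' φ) xs p ↔ ∀ q ≤ p, ∃ r ≤ q, ∃ x, Fo φ (sn xs x) r := by
  unfold Fo
  rw [forces_ex]
  simp only [Set.mem_univ, true_and]

omit [OrderTop P] in
theorem fo_ex_of {φ : Fm (n + 1)} (x : Name P) (h : Fo φ (sn xs x) p) : Fo (∃' φ) xs p :=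
  forces_ex_of (Set.mem_univ x) h

theorem fo_upair {u x y : Fin n} :
    Fo (fUpair u x y) xs p ↔ ForcesEq (xs u) (upN (xs x) (xs y)) p := by
  unfold fUpair
  rw [fo_all]
  have key : ∀ z : Name P, Fo (fMem nw (up u) ⇔ (fEq nw (up x) ⊔ fEq nw (up y))) (sn xs z) p ↔
      ∀ q ≤ p, (ForcesMem z (xs u) q ↔ ForcesMem z (upN (xs x) (xs y)) q) := by
    intro z
    unfold Fo
    rw [forces_iff]
    refine forall_congr' fun q => forall_congr' fun _ => ?_
    rw [forces_mem, forces_or, mem_upN]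
    simp only [forces_eq, sn_up, sn_nw]
  constructor
  · intro h
    exact ForcesEq.ext (fun z q hq h1 => ((key z).1 (h z) q hq).1 h1)
      (fun z q hq h1 => ((key z).1 (h z) q hq).2 h1)
  · intro h z
    exact (key z).2 fun q hq => (h.mono hq).mem_iff

theorem fo_opair {z x y : Fin n} :
    Fo (fOpair z x y) xs p ↔ ForcesEq (xs z) (opN (xs x) (xs y)) p := by
  unfold fOpair
  rw [fo_all]
  have key : ∀ w : Name P, Fo (fMem nw (up z) ⇔ (fUpair nw (up x) (up x) ⊔
      fUpair nw (up x) (up y))) (sn xs w) p ↔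
      ∀ q ≤ p, (ForcesMem w (xs z) q ↔ ForcesMem w (opN (xs x) (xs y)) q) := by
    intro w
    unfold Fo
    rw [forces_iff]
    refine forall_congr' fun q => forall_congr' fun _ => ?_
    rw [forces_mem, forces_or, opN, mem_upN]
    have e1 : ∀ r, Forces Set.univ (fUpair nw (up x) (up x)) (sn xs w) r ↔
        ForcesEq w (upN (xs x) (xs x)) r := by
      intro r
      have := fo_upair (u := nw) (x := up x) (y := up x) (xs := sn xs w) (p := r)
      simp only [sn_up, sn_nw] at this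
      exact this
    have e2 : ∀ r, Forces Set.univ (fUpair nw (up x) (up y)) (sn xs w) r ↔
        ForcesEq w (upN (xs x) (xs y)) r := by
      intro r
      have := fo_upair (u := nw) (x := up x) (y := up y) (xs := sn xs w) (p := r)
      simp only [sn_up, sn_nw] at this
      exact this
    simp only [e1, e2, sn_up, sn_nw]
  constructor
  · intro h
    exact ForcesEq.ext (fun z q hq h1 => ((key z).1 (h z) q hq).1 h1)
      (fun z q hq h1 => ((key z).1 (h z) q hq).2 h1)
  · intro h z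
    exact (key z).2 fun q hq => (h.mono hq).mem_iff

theorem fo_app {f x y : Fin n} :
    Fo (fApp f x y) xs p ↔ ForcesMem (opN (xs x) (xs y)) (xs f) p := by
  unfold fApp
  rw [fo_ex]
  have e1 : ∀ (w : Name P) (r : P), Fo (fMem nw (up f) ⊓ fOpair nw (up x) (up y)) (sn xs w) r ↔
      ForcesMem w (xs f) r ∧ ForcesEq w (opN (xs x) (xs y)) r := by
    intro w r
    have := fo_opair (z := nw) (x := up x) (y := up y) (xs := sn xs w) (p := r)
    simp only [sn_up, sn_nw] at this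
    unfold Fo at *
    rw [forces_and, forces_mem, this]
    simp only [sn_up, sn_nw]
  simp only [e1]
  constructor
  · intro h
    refine (ForcesMem.reg _ _).dense fun q hq => ?_
    obtain ⟨r, hr, w, h1, h2⟩ := h q hq
    exact ⟨r, hr, h1.congr_left h2⟩
  · intro h q hq
    exact ⟨q, le_rfl, _, h.mono hq, ForcesEq.refl _ _⟩

end Univ

end Pool.Agent.helper60.FcU
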