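import Mathlib

set_option autoImplicit false

/-!
# Notions of set theory inside a structure `(M, E)`
-/

namespace Pool.Agent.helper60.FcU.Sem

variable {M : Type} (E : M → M → Prop)

/-- `z = {x, y}`. -/
def UPair (z x y : M) : Prop := ∀ t, E t z ↔ t = x ∨ t = y

/-- `z = (x, y)`, the Kuratowski ordered pair `{{x}, {x, y}}`. -/
def OPair (z x y : M) : Prop := ∀ t, E t z ↔ UPair E t x x ∨ UPair E t x y

/-- `(x, y) ∈ f`. -/
def App (f x y : M) : Prop := ∃ z, E z f ∧ OPair E z x y

/-- `f` is a function from `a` to `b`. -/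
def Fun (f a b : M) : Prop :=
  (∀ z, E z f → ∃ x, E x a ∧ ∃ y, E y b ∧ OPair E z x y) ∧
  (∀ x, E x a → ∃ y, E y b ∧ App E f x y) ∧
  ∀ x y y', App E f x y → App E f x y' → y = y'

/-- `f` is injective. -/
def Inj (f : M) : Prop := ∀ x x' y, App E f x y → App E f x' y → x = x'

/-- `f` maps `a` onto `b`. -/
def Surj (f a b : M) : Prop := ∀ y, E y b → ∃ x, E x a ∧ App E f x y

/-- `a` and `b` have the same cardinality: there is a bijection from `a` onto `b`. -/
def Equip (a b : M) : Prop := ∃ f, Fun E f a b ∧ Inj E f ∧ Surj E f a b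

/-- `x` is a transitive set. -/
def Trans (x : M) : Prop := ∀ y, E y x → ∀ z, E z y → E z x

/-- `x` is an ordinal: a transitive set of transitive sets. -/
def Ord (x : M) : Prop := Trans E x ∧ ∀ y, E y x → Trans E y

/-- The ordinal `w` is a (nonzero) limit ordinal. -/
def Lim (w : M) : Prop := (∃ t, E t w) ∧ ∀ t, E t w → ∃ s, E s w ∧ E t s

end Pool.Agent.helper60.FcU.Sem
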