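import Mathlib
import Pool.Agent.helper60.FcU.FoFm

set_option autoImplicit false

universe u

/-!
# Forcing and cardinals
-/

open FirstOrder FirstOrder.Language Cardinal

namespace Pool.Agent.helper60.FcU

variable {P : Type u} [Preorder P] [OrderTop P] {p : P} {n : ℕ} {xs : Fin n → Name P}

/-- Surjectivity of a forced function. -/
def FSurj (f a b : Name P) (p : P) : Prop :=
  ∀ y, ∀ q ≤ p, ForcesMem y b q →
    ∀ r ≤ q, ∃ s ≤ r, ∃ x, ForcesMem x a s ∧ ForcesMem (opN x y) f s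

/-- Injectivity of a forced function. -/
def FInj (f : Name P) (p : P) : Prop :=
  ∀ x x' y, ∀ q ≤ p, ForcesMem (opN x y) f q → ForcesMem (opN x' y) f q → ForcesEq x x' q

theorem FSurj.mono {f a b : Name P} {q : P} (h : FSurj f a b p) (hq : q ≤ p) : FSurj f a b q :=
  fun y r hr => h y r (hr.trans hq)

theorem FInj.mono {f : Name P} {q : P} (h : FInj f p) (hq : q ≤ p) : FInj f q :=
  fun x x' y r hr => h x x' y r (hr.trans hq)

theorem fo_equip {a b : Fin n} : Fo (fEquip a b) xs p ↔ ∀ q ≤ p, ∃ r ≤ q, ∃ f,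
    FFun f (xs a) (xs b) r ∧ FInj f r ∧ FSurj f (xs a) (xs b) r := by
  unfold fEquip
  rw [fo_ex]
  simp only [fo_and, fo_fun, fo_inj, fo_surj, sn_up, sn_nw]
  exact Iff.rfl

theorem fo_equip_of {a b : Fin n} (f : Name P) (h1 : FFun f (xs a) (xs b) p) (h2 : FInj f p)
    (h3 : FSurj f (xs a) (xs b) p) : Fo (fEquip a b) xs p :=
  fo_equip.2 fun q hq => ⟨q, le_rfl, f, h1.mono hq, h2.mono hq, h3.mono hq⟩

/-! ### Ordinals -/

theorem fo_trans_oN {x : Fin n} {o : Ordinal.{u}} (hx : xs x = oN P o) : Fo (fTrans x) xs p := by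
  unfold fTrans
  rw [fo_ball_oN hx]
  intro i hi
  rw [fo_ball_oN (o := i) (by rw [sn_nw])]
  intro j hj
  rw [fo_mem]
  simp only [sn_up, sn_nw]
  rw [hx, oN_mem_oN]
  exact hj.trans hi

theorem fo_ord_oN {x : Fin n} {o : Ordinal.{u}} (hx : xs x = oN P o) : Fo (fOrd x) xs p := by
  unfold fOrd
  rw [fo_and]
  refine ⟨fo_trans_oN hx, ?_⟩
  rw [fo_ball_oN hx]
  intro i _
  exact fo_trans_oN (o := i) (by rw [sn_nw])

theorem fo_lim_oN {x : Fin n} {o : Ordinal.{u}} (hx : xs x = oN P o)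
    (ho : Order.IsSuccLimit o) : Fo (fLim x) xs p := by
  unfold fLim
  rw [fo_and]
  have h0 : 0 < o := by
    rw [pos_iff_ne_zero]
    rintro rfl
    exact ho.1 isMin_bot
  constructor
  · refine fo_ex_of (oN P 0) ?_
    rw [fo_mem, sn_nw, sn_up, hx, oN_mem_oN]
    exact h0
  · rw [fo_ball_oN hx]
    intro i hi
    have hx' : sn xs (oN P i) (up x) = oN P o := by rw [sn_up, hx]
    refine (fo_bex_oN hx').2 fun q _ => ⟨q, le_rfl, Order.succ i, ho.succ_lt hi, ?_⟩
    rw [fo_mem]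
    simp only [sn_up, sn_nw]
    rw [oN_mem_oN]
    exact Order.lt_succ i

end Pool.Agent.helper60.FcU
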